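import Pool.Agent.N892.UP.Meas
import Pool.Agent.N892.UP.Sums
import Pool.Agent.N892.UP.Spec
import Pool.Agent.Results.MP_fe58d8_pr.ExactModulus
import Pool.Agent.Results.MP_fe58d8_pr.ExactOccupation

/-!
# Images of all sets of times under the scaling limits of the exploration path

Critical bond percolation on `δ ℤ²` in a rectangle `D = (-A, B) × (0, H)`, with the counterclockwise
boundary arc from `a = t + i H` to `b = 0` wired and the other one dual-wired. The exploration path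
is parametrised by its number of steps: `Rect.curve` is the piecewise linear curve on `[0, 1]` run
at constant speed, and `Rect.time` is the number of steps times `δ ^ (7/4)`; `Rect.law` is the law
of (curve, time). Weak limits exist along a subsequence of every sequence of meshes.

For every weak limit `(f, T)`, almost surely, simultaneously for ALL sets `E` of times (no
measurability is assumed, and `E` may depend on the curve):

* `H^g (f(E)) ≤ H^(g ∘ ω) (E)` for all gauges `g`, `ω(h) = C h ^ (4/7) (log (1/h)) ^ (3/7)`, and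
  `H^g (E) ≤ H^G (f(E))` with `G(r) = K (log (1/r)) ^ (7/8) g (κ r ^ (7/4) (log (1/r)) ^ (-3/4))`,
  for all gauges `g` such that `G` tends to zero at zero (natural time); for planar Brownian motion
  results of this kind are due to Perkins and Taylor;
* `f` multiplies the upper and the lower box dimension, the packing dimension and the Assouad
  spectrum of `E` by `7/4`;
* the `L^q` mesh sums of every measure `ν` on the time interval, at the scale
  `κ r ^ (7/4) (log (1/r)) ^ (-3/4)`, and those of its image under `f`, at the scale `r`, are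
  comparable up to the factors `9 (K (log (1/r)) ^ (7/8)) ^ q` and `9 ^ q K (log (1/r)) ^ (7/8)`.

The first two items hold for the graph of `f` over `E` as well.

Definitions: `Pool.Agent.N892.UP.Defs` (`CovBy`, `upperBoxDim`, `lowerBoxDim`, `packDim`,
`assouadSpec`), `Pool.Agent.N892.UP.Calc` (`om`, `lam`, `mult`), `Pool.Agent.N892.UP.Cells`
(`cell`), `Pool.Agent.N892.UP.Sums` (`sq`, `sumSq`, `sumCell`); for the exploration path,
`Pool.Agent.H984R4.NP.Model` (`Rect`, `pos`, `clamp`, `pl`, `X`, `Rect.dm`, `Rect.curve`,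
`Rect.time`, `Rect.law`), `Pool.Agent.H984R4.NP.Defs` (`Dm`, `Dm.edges`, `Dm.wir`, `Dm.cfg`,
`Dm.walk`, `Dm.len`) and `Pool.Agent.H984R3.Per.Defs` (states, `ae`, `mv`, `rt`, `nxt`, `orb`).
-/

set_option autoImplicit false

namespace Pool.Agent.Results.MP_fe58d8_pr.UniformMeasure

open H984N MeasureTheory Metric Filter Topology Pool.Agent.N892.UP
open scoped ENNReal NNReal

/-- Two-sided comparison of the Hausdorff measures of `F '' E` and of `E`, for all `E` and all
gauges. -/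
def Measures {Y : Type} [MetricSpace Y] [MeasurableSpace Y] [BorelSpace Y]
    (F : unitInterval → Y) (C κ K T : ℝ) : Prop :=
  ∀ (E : Set unitInterval) (g : ℝ≥0∞ → ℝ≥0∞), Monotone g →
    Measure.mkMetric g (F '' E) ≤
      Measure.mkMetric (fun d => g (ENNReal.ofReal (om C (T * d.toReal)))) E ∧
    (Tendsto (fun r : ℝ => ENNReal.ofReal (mult K r) * g (ENNReal.ofReal (lam κ r)))
        (𝓝[>] 0) (𝓝 0) →
      Measure.mkMetric (fun d => g (ENNReal.ofReal T * d)) E ≤
        Measure.mkMetric (fun d => ENNReal.ofReal (mult K d.toReal) *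
          g (ENNReal.ofReal (lam κ d.toReal))) (F '' E))

/-- The map `F` multiplies the box dimensions, the packing dimension and the Assouad spectrum of
all sets by `7/4`. -/
def Dimensions {Y : Type} [MetricSpace Y] (F : unitInterval → Y) : Prop :=
  ∀ E : Set unitInterval,
    upperBoxDim (F '' E) = 7 / 4 * upperBoxDim E ∧
    lowerBoxDim (F '' E) = 7 / 4 * lowerBoxDim E ∧
    packDim (F '' E) = 7 / 4 * packDim E ∧
    ∀ θ : ℝ, 0 < θ → θ < 1 → assouadSpec θ (F '' E) = 7 / 4 * assouadSpec θ E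

theorem measures_of_ctl {Y : Type} [MetricSpace Y] [MeasurableSpace Y] [BorelSpace Y]
    {F : unitInterval → Y} {C C2 κ T : ℝ} (hC2 : 0 < C2) (hκ : 0 < κ) (hT : 0 < T)
    (h : Ctl F C C2 κ T) : Measures F C κ (1 + 4 * C2 / κ) T :=
  fun E _ hg => ⟨h.gauge_up hT hg E, fun hg0 => h.gauge_down hC2 hκ hT hg hg0 E⟩

theorem dimensions_of_ctl {Y : Type} [MetricSpace Y]
    {F : unitInterval → Y} {C C2 κ T : ℝ} (hC : 0 < C) (hC2 : 0 < C2) (hκ : 0 < κ) (hT : 0 < T)
    (hCκ : C * (κ ^ (4/7 : ℝ) * (3:ℝ) ^ (3/7 : ℝ)) ≤ 1)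
    (h : Ctl F C C2 κ T) : Dimensions F := by
  have ha : (0 : ℝ≥0) < 7 / 4 := by positivity
  have e : ((7 / 4 : ℝ≥0) : ℝ≥0∞) = 7 / 4 := by
    rw [ENNReal.coe_div (by norm_num)]; norm_num
  have hg := fun (ε : ℝ) (hε : 0 < ε) => h.good hC hC2 hκ hT hCκ ε hε
  intro E
  rw [← e]
  exact ⟨upper_eq ha hg E, lower_eq ha hg E, pack_eq ha hg E,
    fun θ h0 h1 => spec_eq ha hg h0 h1 E⟩

theorem result (R : Rect) :
    (∀ δ : ℕ → ℝ, (∀ i, 0 < δ i) → Tendsto δ atTop (𝓝 0) →
      ∃ φ : ℕ → ℕ, StrictMono φ ∧ ∃ μ : ProbabilityMeasure X,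
        Tendsto (fun i => R.law (δ (φ i))) atTop (𝓝 μ)) ∧
    ∃ C κ K : ℝ, 0 < C ∧ 0 < κ ∧ 0 < K ∧
      ∀ δ : ℕ → ℝ, (∀ i, 0 < δ i) → Tendsto δ atTop (𝓝 0) → ∀ μ : ProbabilityMeasure X,
        Tendsto (fun i => R.law (δ i)) atTop (𝓝 μ) →
        ∀ᵐ p ∂(μ : Measure X), 0 < p.2 ∧
          (Measures p.1 C κ K p.2 ∧ Measures (fun s => (s, p.1 s)) C κ K p.2) ∧
          (Dimensions p.1 ∧ Dimensions (fun s => (s, p.1 s))) ∧
          ∃ r0 : ℝ, 0 < r0 ∧ ∀ r : ℝ, 0 < r → r < r0 →
            ∀ (ν : Measure unitInterval) (q : ℝ), 0 < q →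
              sumSq (ν.map p.1) r q ≤
                9 * ENNReal.ofReal (mult K r) ^ q * sumCell ν (lam κ r / p.2) q ∧
              sumCell ν (lam κ r / p.2) q ≤
                ENNReal.ofReal (mult K r) * 9 ^ q * sumSq (ν.map p.1) r q := by
  obtain ⟨h1, c1, C, hc1, hC, hmod⟩ := ExactModulus.result R
  obtain ⟨-, c2, C2, hc2, hC2, hocc⟩ := ExactOccupation.result R
  obtain ⟨κ, hκ, hCκ⟩ := exists_kappa hC
  refine ⟨h1, C, κ, 1 + 4 * C2 / κ, hC, hκ, by positivity, fun δ hδ hlim μ hμ => ?_⟩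
  filter_upwards [hmod δ hδ hlim μ hμ, hocc δ hδ hlim μ hμ] with p g1 g2
  have hT := g1.1
  obtain ⟨h0, hh0, k1⟩ := g1.2 0 1 zero_lt_one
  obtain ⟨r0, hr0, k2⟩ := g2.2 0 1 zero_lt_one
  have ctl : Ctl p.1 C C2 κ p.2 := by
    refine Ctl.of_curve hC hκ hT hCκ ?_ ?_
    · filter_upwards [Ioo_mem_nhdsGT hh0] with h hh s t hst
      exact (k1 h hh.1 hh.2).2 s t hst
    · filter_upwards [Ioo_mem_nhdsGT hr0] with r hr y
      exact (k2 r hr.1 hr.2).2 y
  refine ⟨hT, ⟨measures_of_ctl hC2 hκ hT ctl, measures_of_ctl hC2 hκ hT (ctl.graph hC hT)⟩,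
    ⟨dimensions_of_ctl hC hC2 hκ hT hCκ ctl,
      dimensions_of_ctl hC hC2 hκ hT hCκ (ctl.graph hC hT)⟩, ?_⟩
  obtain ⟨r1, hr1, k3⟩ := mem_nhdsGT_iff_exists_Ioo_subset.1
    (ctl.sums p.1.continuous.measurable hC hC2 hκ hT hCκ)
  exact ⟨r1, hr1, fun r hr hr' => k3 ⟨hr, hr'⟩⟩

end Pool.Agent.Results.MP_fe58d8_pr.UniformMeasure
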