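import Pool.Agent.N948.IX.Fin4
import Pool.Agent.TH966.DP.Fin
import Pool.Agent.H443R3.BT.Fin
import Pool.Agent.Results.MP_fe58d8_pr.NaturalCurve
import Pool.Agent.Results.MP_fe58d8_pr.UniformDimension

/-!
# The local cut points of the exploration path

Critical bond percolation on `δ ℤ²` in a rectangle `D = (-A, B) × (0, H)`, with the counterclockwise
boundary arc from `a = t + i H` to `b = 0` wired and the other one dual-wired. The exploration path
is parametrised by its number of steps: `Rect.curve` is the piecewise linear curve on `[0, 1]` run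
at constant speed, and `Rect.time` is the number of steps times `δ ^ (7/4)`; `Rect.law` is the law
of (curve, time). Weak limits exist along a subsequence of every sequence of meshes.

A local cut point of a curve `f` is a point `f t` such that for some `s < t < u` the pieces
`f [s, t)` and `f (t, u]` are disjoint.

For every weak limit, almost surely, the local cut points form a set of Hausdorff dimension exactly
`3/4`, and so do those in `D` within distance `ρ` of the end point `b`, for every `ρ > 0`; the set of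
the times at which the curve is at a local cut point has dimension `3/7`. For every fixed set `T`,
almost surely, the local cut points in `T ∩ D` have dimension at most `dimH T - 5/4`, and there are
none if the `5/4`-dimensional Hausdorff measure of `T` is zero.

Definitions: `Pool.Agent.H984R4.NP.Model` (`Rect`, `pos`, `clamp`, `pl`, `X`, `Rect.D`, `Rect.dm`,
`Rect.curve`, `Rect.time`, `Rect.law`), `Pool.Agent.H984R4.NP.Defs` (`Dm`, `Dm.edges`, `Dm.wir`,
`Dm.cfg`, `Dm.walk`, `Dm.len`) and `Pool.Agent.H984R3.Per.Defs` (states, `ae`, `mv`, `rt`, `nxt`,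
`orb`).
-/

set_option autoImplicit false

namespace Pool.Agent.Results.MP_fe58d8_pr.LocalCutPoints

open H984N MeasureTheory Filter Topology
open scoped ENNReal NNReal

/-- The local cut points of a curve: the points `f t` such that for some `s < t < u` the pieces
`f [s, t)` and `f (t, u]` are disjoint. -/
def localCutPoints (f : C(unitInterval, ℂ)) : Set ℂ :=
  {z | ∃ s t u : unitInterval, s < t ∧ t < u ∧ f t = z ∧
    Disjoint (f '' Set.Ico s t) (f '' Set.Ioc t u)}

/-- The times at which a curve is at a local cut point. -/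
def cutTimes (f : C(unitInterval, ℂ)) : Set unitInterval := {s | f s ∈ localCutPoints f}

theorem image_cutTimes (f : C(unitInterval, ℂ)) : f '' cutTimes f = localCutPoints f := by
  ext z
  constructor
  · rintro ⟨s, hs, rfl⟩
    exact hs
  · intro hz
    obtain ⟨s, t, u, h1, h2, h3, h4⟩ := hz
    exact ⟨t, ⟨s, t, u, h1, h2, rfl, h4⟩, h3⟩

theorem ofR (a b : ℝ) (hb : 0 < b) : ENNReal.ofReal (a / b) = ENNReal.ofReal a / ENNReal.ofReal b :=
  ENNReal.ofReal_div_of_pos hb

theorem e54 : ENNReal.ofReal (5 / 4) = 5 / 4 := by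
  rw [ofR _ _ (by norm_num)]; norm_num

theorem e34' : (2 : ℝ≥0∞) - 5 / 4 = 3 / 4 := by
  rw [← e54, show (2 : ℝ≥0∞) = ENNReal.ofReal 2 by norm_num, ← ENNReal.ofReal_sub _ (by norm_num),
    show (2 : ℝ) - 5 / 4 = 3 / 4 by norm_num, ofR _ _ (by norm_num)]
  norm_num

theorem dimC : dimH (Set.univ : Set ℂ) = 2 := by
  rw [Real.dimH_univ_eq_finrank ℂ, Complex.finrank_real_complex]
  norm_num

/-- A curve all of whose pieces have dimension `7/4` is not constant on intervals. -/
theorem nonconst {f : C(unitInterval, ℂ)} (hf : ∀ s t : unitInterval, s < t →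
    dimH (f '' Set.Icc s t) = 7 / 4) (s t : unitInterval) (hst : s < t) :
    ∃ u ∈ Set.Icc s t, f u ≠ f s := by
  by_contra hcon
  push Not at hcon
  have h4 : f '' Set.Icc s t ⊆ {f s} := by
    rintro w ⟨u, hu, rfl⟩
    exact hcon u hu
  have h5 := dimH_mono h4
  rw [hf s t hst, dimH_singleton] at h5
  exact absurd h5 (not_le.2 (ENNReal.div_pos (by norm_num) (by norm_num)))

theorem result (R : Rect) :
    (∀ δ : ℕ → ℝ, (∀ i, 0 < δ i) → Tendsto δ atTop (𝓝 0) →
      ∃ φ : ℕ → ℕ, StrictMono φ ∧ ∃ μ : ProbabilityMeasure X,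
        Tendsto (fun i => R.law (δ (φ i))) atTop (𝓝 μ)) ∧
    (∀ δ : ℕ → ℝ, (∀ i, 0 < δ i) → Tendsto δ atTop (𝓝 0) → ∀ μ : ProbabilityMeasure X,
      Tendsto (fun i => R.law (δ i)) atTop (𝓝 μ) →
      (∀ᵐ p ∂(μ : Measure X),
        dimH (localCutPoints p.1) = 3 / 4 ∧ dimH (cutTimes p.1) = 3 / 7 ∧
        ∀ ρ : ℝ, 0 < ρ → dimH (localCutPoints p.1 ∩ R.D ∩ Metric.ball 0 ρ) = 3 / 4) ∧
      ∀ T : Set ℂ, ∀ᵐ p ∂(μ : Measure X),
        dimH (localCutPoints p.1 ∩ T ∩ R.D) ≤ dimH T - 5 / 4 ∧
        (μH[5 / 4] T = 0 → localCutPoints p.1 ∩ T ∩ R.D = ∅)) := by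
  obtain ⟨h1, h2⟩ := UniformDimension.result R
  refine ⟨h1, fun δ hδ hlim μ hμ => ?_⟩
  have key : ∀ T : Set ℂ, ∀ᵐ p ∂(μ : Measure X),
        dimH (localCutPoints p.1 ∩ T ∩ R.D) ≤ dimH T - 5 / 4 ∧
        (μH[5 / 4] T = 0 → localCutPoints p.1 ∩ T ∩ R.D = ∅) := by
    intro T
    filter_upwards [(NaturalCurve.result R).2.2.2 δ hδ hlim μ hμ,
      Pool.Agent.N948.IX.hlimr R δ hδ hlim μ hμ T] with p hq hc
    obtain ⟨-, -, -, hcl, hdim, -⟩ := hq
    obtain ⟨h3, h4⟩ := hc (nonconst hdim)
    rw [e54] at h3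
    exact ⟨h3, h4⟩
  refine ⟨?_, key⟩
  filter_upwards [h2 δ hδ hlim μ hμ, (NaturalCurve.result R).2.2.2 δ hδ hlim μ hμ,
    H443B.dims R hδ hlim hμ, key Set.univ,
    Pool.Agent.N948.IX.hlimr5 R δ hδ hlim μ hμ] with p hp hq hd hup hlo
  obtain ⟨-, -, -, hcl, hdim, -⟩ := hq
  obtain ⟨d1, -⟩ := hd
  -- the upper bound
  have hupD : dimH (localCutPoints p.1 ∩ R.D) ≤ 3 / 4 := by
    have h3 := hup.1
    rwa [Set.inter_univ, dimC, e34'] at h3
  have hupA : dimH (localCutPoints p.1) ≤ 3 / 4 := by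
    have h3 : localCutPoints p.1 ⊆
        (localCutPoints p.1 ∩ R.D) ∪ (Set.range p.1 ∩ frontier R.D) := by
      intro z hz'
      obtain ⟨s, t, u, hst, htu, h4, h5⟩ := hz'
      by_cases hz : z ∈ R.D
      · exact Or.inl ⟨⟨s, t, u, hst, htu, h4, h5⟩, hz⟩
      · refine Or.inr ⟨⟨t, h4⟩, ?_⟩
        rw [frontier]
        refine ⟨h4 ▸ hcl t, fun h6 => hz (interior_subset h6)⟩
    refine (dimH_mono h3).trans ?_
    rw [dimH_union, d1]
    exact max_le hupD Pool.Agent.TH966.DP.two_thirds_le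
  -- the lower bound
  have hloc : ∀ ρ : ℝ, 0 < ρ →
      3 / 4 ≤ dimH (localCutPoints p.1 ∩ R.D ∩ Metric.ball 0 ρ) := fun ρ hρ => hlo ρ hρ
  have hall : dimH (localCutPoints p.1) = 3 / 4 :=
    le_antisymm hupA ((hloc 1 one_pos).trans
      (dimH_mono (Set.inter_subset_left.trans Set.inter_subset_left)))
  refine ⟨hall, ?_, fun ρ hρ => le_antisymm ?_ (hloc ρ hρ)⟩
  · apply Pool.Agent.TH966.DP.solve
    rw [← hp, image_cutTimes, hall]
  · exact (dimH_mono Set.inter_subset_left).trans hupD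

end Pool.Agent.Results.MP_fe58d8_pr.LocalCutPoints
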