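import Pool.Agent.N931.PN.All2

/-!
# Sharp noise sensitivity and stability of the exploration path of critical percolation on `ℤ²`

Critical bond percolation on `δ ℤ²` in a rectangle `D = (-A, B) × (0, H)`, with the counterclockwise
boundary arc from `a = t + i H` to `b = 0` wired and the other one dual-wired; `law R δ pc` is the
law of the exploration path `γ` from `a` to `b` as a curve, in the distance
`inf_φ sup_t |γ(t) - γ'(φ(t))|` (the distance `d` of the problem).  `law2 R δ ε` is the law of the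
pair of paths `(γ, γ')`, where `γ'` is the exploration path after every edge of the rectangle was
resampled independently with probability `ε` (dynamical percolation at time `-log (1 - ε)`).  Put
`Λ = ε δ ^ (-3/4)`.

1. Decorrelation: `|E f(γ) g(γ') - E f(γ) E g(γ)| ≤ C (1 + Λ) ^ (-2/3) (1 + log (1 + Λ))²` for all
   `f`, `g` bounded by one and 1-Lipschitz for the distance of curves.
2. The exponent `2/3` is exact: `E f(γ) f(γ') - (E f(γ))² ≥ c (1 + Λ) ^ (-2/3)` (`ε ≤ 1/2`) for one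
   such `f`.
3. Stability: `P(d(γ, γ') > r) ≤ C Λ r ^ (-5/4)` for all `r > 0`, and
   `P(d(γ, γ') > r₀) ≥ c min (1, Λ)` for one `r₀ > 0`.
4. For all sequences `δ_i → 0` and `ε_i`: the two paths have the same limit if and only if
   `Λ_i → 0`, and they have independent limits if and only if `Λ_i → ∞` (limits along all
   subsequences along which the laws of the path converge, weak convergence of the laws of the
   pairs).

Definitions: `Pool.Agent.H984R4.NP.Model` (`Rect`, `pos`, `clamp`, `pl`, `Rect.dm`, `Rect.curve`),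
`Pool.Agent.H984R4.NP.Defs` (`Dm`, `Dm.edges`, `Dm.wir`, `Dm.cfg`, `Dm.outer`, `Dm.walk`, `Dm.len`),
`Pool.Agent.H984R3.Per.Defs` (states of the interface, `nxt`), `Pool.Agent.H342R3.Lim.Curve`
(`Curve`, `cdist`), `Pool.Agent.N116.EW.Model` (`law`, `pc = 1/2`), `Pool.Agent.N931.PN.Law2`
(`law2`, `dg γ = (γ, γ)`).

Proof (project PN): Fourier-Walsh analysis of Lipschitz functions of the path.  The spectral weight
is bounded by the influences of blocks of side `r`, `ε r ^ (3/4) = 1`, for two configurations which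
are nearly independent inside of the blocks, with the sharp two-layer arm exponents of project SN at
all scales, in the bulk (four and two arms), near the sides (three arms), near the corners and the
ends of the path; lower bound by test functions (second moments of the number of pivotal edges);
stability by the coupling of project EW with the exponent `5/4` for flips.
-/

set_option autoImplicit false

namespace Pool.Agent.Results.MP_fe58d8_pr.PathNoise

open Pool.Agent.N116.EW Pool.Agent.N931.PN H984N MeasureTheory Filter Topology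
open H342L (Curve)

theorem result (R : Rect) :
    (∀ (δ : ℝ) (ε : unitInterval),
      (law2 R δ ε : Measure (Curve × Curve)).map Prod.fst = law R δ pc ∧
      (law2 R δ ε : Measure (Curve × Curve)).map Prod.snd = law R δ pc) ∧
    (∃ C δ0 : ℝ, 0 < C ∧ 0 < δ0 ∧ ∀ δ : ℝ, 0 < δ → δ ≤ δ0 → ∀ ε : unitInterval,
      ∀ f g : Curve → ℝ, (∀ γ γ', |f γ - f γ'| ≤ dist γ γ') → (∀ γ, |f γ| ≤ 1) →
        (∀ γ γ', |g γ - g γ'| ≤ dist γ γ') → (∀ γ, |g γ| ≤ 1) →
        |(∫ q, f q.1 * g q.2 ∂(law2 R δ ε : Measure (Curve × Curve))) -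
          (∫ γ, f γ ∂(law R δ pc : Measure Curve)) * ∫ γ, g γ ∂(law R δ pc : Measure Curve)| ≤
            C * (1 + (ε : ℝ) * δ ^ (-(3 / 4) : ℝ)) ^ (-(2 / 3) : ℝ) *
              (1 + Real.log (1 + (ε : ℝ) * δ ^ (-(3 / 4) : ℝ))) ^ 2) ∧
    (∃ f : Curve → ℝ, (∀ γ γ', |f γ - f γ'| ≤ dist γ γ') ∧ (∀ γ, |f γ| ≤ 1) ∧
      ∃ c δ0 : ℝ, 0 < c ∧ 0 < δ0 ∧ ∀ δ : ℝ, 0 < δ → δ ≤ δ0 → ∀ ε : unitInterval,
        (ε : ℝ) ≤ 1 / 2 → c * (1 + (ε : ℝ) * δ ^ (-(3 / 4) : ℝ)) ^ (-(2 / 3) : ℝ) ≤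
          (∫ q, f q.1 * f q.2 ∂(law2 R δ ε : Measure (Curve × Curve))) -
            (∫ γ, f γ ∂(law R δ pc : Measure Curve)) ^ 2) ∧
    (∃ C δ0 : ℝ, 0 < C ∧ 0 < δ0 ∧ ∀ δ : ℝ, 0 < δ → δ ≤ δ0 → ∀ (ε : unitInterval) (r : ℝ), 0 < r →
      (law2 R δ ε : Measure (Curve × Curve)) {q | r < dist q.1 q.2} ≤
        ENNReal.ofReal (C * ((ε : ℝ) * δ ^ (-(3 / 4) : ℝ)) * r ^ (-(5 / 4) : ℝ))) ∧
    (∃ c r0 δ0 : ℝ, 0 < c ∧ 0 < r0 ∧ 0 < δ0 ∧ ∀ δ : ℝ, 0 < δ → δ ≤ δ0 → ∀ ε : unitInterval,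
      ENNReal.ofReal (c * min 1 ((ε : ℝ) * δ ^ (-(3 / 4) : ℝ))) ≤
        (law2 R δ ε : Measure (Curve × Curve)) {q | r0 < dist q.1 q.2}) ∧
    (∀ (δ : ℕ → ℝ) (ε : ℕ → unitInterval), (∀ i, 0 < δ i) → Tendsto δ atTop (𝓝 0) →
      (Tendsto (fun i => (ε i : ℝ) * (δ i) ^ (-(3 / 4) : ℝ)) atTop (𝓝 0) ↔
        ∀ φ : ℕ → ℕ, StrictMono φ → ∀ μ : ProbabilityMeasure Curve,
          Tendsto (fun i => law R (δ (φ i)) pc) atTop (𝓝 μ) →
            Tendsto (fun i => law2 R (δ (φ i)) (ε (φ i))) atTop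
              (𝓝 (μ.map (dg_cont.measurable.aemeasurable)))) ∧
      (Tendsto (fun i => (ε i : ℝ) * (δ i) ^ (-(3 / 4) : ℝ)) atTop atTop ↔
        ∀ φ : ℕ → ℕ, StrictMono φ → ∀ μ : ProbabilityMeasure Curve,
          Tendsto (fun i => law R (δ (φ i)) pc) atTop (𝓝 μ) →
            Tendsto (fun i => law2 R (δ (φ i)) (ε (φ i))) atTop (𝓝 (μ.prod μ)))) ∧
    (∀ δ : ℕ → ℝ, (∀ i, 0 < δ i) → Tendsto δ atTop (𝓝 0) →
      ∃ φ : ℕ → ℕ, StrictMono φ ∧ ∃ μ : ProbabilityMeasure Curve,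
        Tendsto (fun i => law R (δ (φ i)) pc) atTop (𝓝 μ)) :=
  ⟨fun δ ε => ⟨(aINT R δ ε).2.2.1, (aINT R δ ε).2.2.2⟩, aP2T R, aP3T R, aP1 R, aP3L R,
    fun δ ε hδ hδ0 => ⟨aSQA R δ ε hδ hδ0, aSQB R δ ε hδ hδ0⟩, aTGT R⟩

end Pool.Agent.Results.MP_fe58d8_pr.PathNoise
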