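import Pool.Agent.N116.EW.All
import Pool.Agent.N116.EW.Kan
import Pool.Agent.N196.EW.Inw
import Pool.Agent.N433.EW.Dom
import Pool.Agent.N216.EW.Mac
import Pool.Agent.N768.EW.Sepp
import Pool.Agent.Results.MP_fe58d8_pr.NaturalCurve

/-!
# The near-critical scaling window of the exploration path of bond percolation on `ℤ²`

Bond percolation on `δ ℤ²` with parameter `p` in a rectangle `D = (-A, B) × (0, H)`, with the
counterclockwise boundary arc from `a = t + i H` to `b = 0` wired and the other one dual-wired;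
`law R δ p` is the law of the exploration path from `a` to `b` as a curve, in the distance
`inf_φ sup_t |γ(t) - γ'(φ(t))|` (the distance `d` of the problem).  Put
`λ = |p - 1/2| δ ^ (-3/4)`.

1. The critical path and the path with parameter `p` can be coupled such that their distance
   exceeds `r` with probability at most `C λ r ^ (-5/4)`, for all `r > 0`, all small `δ`, all `p`.
2. In every coupling the mean of their distance is at least `c min (1, λ) - δ`.
3. The path with parameter `p > 1/2` (`p < 1/2`) is within `r` of the right (left) boundary arc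
   except with probability `C exp (- c |p - 1/2| ^ (4/3) / δ) = C exp (- c λ ^ (4/3))`.
4. For every sequence `δ_i → 0` and all parameters `p_i`: `λ_i → 0` if and only if along every
   subsequence the critical laws and the laws with parameter `p_i` have the same limit (in the sense
   that one converges to `μ` if and only if the other one does); the same holds for the laws of the
   paths in their natural parametrisation (curve of constant speed and number of steps times
   `δ ^ (7/4)`).  If `(p_i - 1/2) δ_i ^ (-3/4) → ∞` (`-∞`), the path converges to the right (left)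
   boundary arc.

Definitions: `Pool.Agent.H984R4.NP.Model` (`Rect`, `pos`, `clamp`, `pl`, `X`, `Rect.dm`,
`Rect.curve`, `Rect.time`, `Rect.law`), `Pool.Agent.H984R4.NP.Defs` (`Dm`, `Dm.edges`, `Dm.wir`,
`Dm.cfg`, `Dm.outer`, `Dm.walk`, `Dm.len`), `Pool.Agent.H984R3.Per.Defs` (states of the interface,
`nxt`, `orb`), `Pool.Agent.H342R3.Lim.Curve` (`Curve`, `cdist`), `Pool.Agent.N116.EW.Model` (`law`,
`pc = 1/2`), `Pool.Agent.N116.EW.ModelN` (`nlaw`; `nlaw R δ pc = R.law δ` is `nlaw_pc` there),
`Pool.Agent.N116.EW.Stm3` (`arcR`, `arcL`).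

Proof (project EW): four arms in a pair of configurations one of which is critical, bounded with the
exponent `5/4` by a recursion over the scales (so that no near-critical arm estimates are needed);
matching of the two paths outside the flipped edges; near-critical two-arm bounds for the natural
parametrisation; the inward inequality (derivatives of crossing probabilities in general domains)
for the lower bounds.  Parts proved by helper86, helper97, helper144, helper196, helper216,
helper322, helper433, helper583, helper592, helper690, helper717, helper768, helper833, helper839,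
helper861, on the base of the starting files.
-/

set_option autoImplicit false

namespace Pool.Agent.Results.MP_fe58d8_pr.PathWindow

open Pool.Agent.N116.EW H984N MeasureTheory Filter Topology
open H342L (Curve)

theorem result (R : Rect) :
    (∃ C δ0 : ℝ, 0 < C ∧ 0 < δ0 ∧ ∀ δ : ℝ, 0 < δ → δ ≤ δ0 → ∀ p : unitInterval,
      ∃ π : Measure (Curve × Curve), π.map Prod.fst = law R δ pc ∧ π.map Prod.snd = law R δ p ∧
        ∀ r : ℝ, 0 < r → π {q | r < dist q.1 q.2} ≤
          ENNReal.ofReal (C * (|(p : ℝ) - 1 / 2| * δ ^ (-(3 / 4) : ℝ)) * r ^ (-(5 / 4) : ℝ))) ∧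
    (∃ c δ0 : ℝ, 0 < c ∧ 0 < δ0 ∧ ∀ δ : ℝ, 0 < δ → δ ≤ δ0 → ∀ (p : unitInterval)
      (π : Measure (Curve × Curve)), π.map Prod.fst = law R δ pc → π.map Prod.snd = law R δ p →
        ENNReal.ofReal (c * min 1 (|(p : ℝ) - 1 / 2| * δ ^ (-(3 / 4) : ℝ)) - δ) ≤
          ∫⁻ q, ENNReal.ofReal (dist q.1 q.2) ∂π) ∧
    (∀ r : ℝ, 0 < r → ∃ C c δ0 : ℝ, 0 < C ∧ 0 < c ∧ 0 < δ0 ∧ ∀ δ : ℝ, 0 < δ → δ ≤ δ0 →
      ∀ p : unitInterval,
        ((1 / 2 : ℝ) ≤ p → (law R δ p : Measure Curve) {γ | r < dist γ ⟨arcR R⟩} ≤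
          ENNReal.ofReal (C * Real.exp (-(c * (|(p : ℝ) - 1 / 2| ^ (4 / 3 : ℝ) / δ))))) ∧
        ((p : ℝ) ≤ 1 / 2 → (law R δ p : Measure Curve) {γ | r < dist γ ⟨arcL R⟩} ≤
          ENNReal.ofReal (C * Real.exp (-(c * (|(p : ℝ) - 1 / 2| ^ (4 / 3 : ℝ) / δ)))))) ∧
    (∀ (δ : ℕ → ℝ) (p : ℕ → unitInterval), (∀ i, 0 < δ i) → Tendsto δ atTop (𝓝 0) →
      (Tendsto (fun i => |(p i : ℝ) - 1 / 2| * (δ i) ^ (-(3 / 4) : ℝ)) atTop (𝓝 0) ↔
        ∀ φ : ℕ → ℕ, StrictMono φ → ∀ μ : ProbabilityMeasure Curve,
          (Tendsto (fun i => law R (δ (φ i)) pc) atTop (𝓝 μ) ↔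
            Tendsto (fun i => law R (δ (φ i)) (p (φ i))) atTop (𝓝 μ))) ∧
      (Tendsto (fun i => |(p i : ℝ) - 1 / 2| * (δ i) ^ (-(3 / 4) : ℝ)) atTop (𝓝 0) ↔
        ∀ φ : ℕ → ℕ, StrictMono φ → ∀ μ : ProbabilityMeasure X,
          (Tendsto (fun i => nlaw R (δ (φ i)) pc) atTop (𝓝 μ) ↔
            Tendsto (fun i => nlaw R (δ (φ i)) (p (φ i))) atTop (𝓝 μ))) ∧
      (Tendsto (fun i => ((p i : ℝ) - 1 / 2) * (δ i) ^ (-(3 / 4) : ℝ)) atTop atTop →
        Tendsto (fun i => law R (δ i) (p i)) atTop
          (𝓝 (⟨Measure.dirac ⟨arcR R⟩, Measure.dirac.isProbabilityMeasure⟩ :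
            ProbabilityMeasure Curve))) ∧
      (Tendsto (fun i => ((p i : ℝ) - 1 / 2) * (δ i) ^ (-(3 / 4) : ℝ)) atTop atBot →
        Tendsto (fun i => law R (δ i) (p i)) atTop
          (𝓝 (⟨Measure.dirac ⟨arcL R⟩, Measure.dirac.isProbabilityMeasure⟩ :
            ProbabilityMeasure Curve)))) := by
  have hSEP : S_SEP := sep inw Pool.Agent.N433.EW.dom Pool.Agent.N216.EW.mac
  refine ⟨part1 allSUM allPL R, kan hSEP R, fun r hr => part2 allSUP allPL allARC R r hr, ?_⟩
  intro δ p hδ hδ0
  have hw := window allSUM allPL allLOC allONE hSEP R (NaturalCurve.result R).2.1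
    (NaturalCurve.result R).2.2.1 δ p hδ hδ0
  have h4 := part4 allSUP allPL allARC R δ p hδ hδ0
  exact ⟨hw.1, hw.2, h4.1, h4.2⟩

end Pool.Agent.Results.MP_fe58d8_pr.PathWindow
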